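import Pool.Agent.MP_7adc1e_nt.Mg.H83_Values

namespace Pool.Agent.Results.MP_7adc1e_nt.FourValues

open Pool.Agent.MP_7adc1e_nt Pool.Agent.MP_7adc1e_nt.H83

/-- If the degree of `L` over its prime field (of odd order) is a power of two then the Weil sums
of an invertible exponent that is not a power of the characteristic take at least four values. -/
theorem result :
    ∀ (L : Type) [Field L] [Fintype L],
      ringChar L ≠ 2 →
      (∃ k : ℕ, Fintype.card L = ringChar L ^ 2 ^ k) →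
      ∀ s : ℕ, Nat.Coprime s (Fintype.card L - 1) →
        (¬ ∃ k : ℕ, s ≡ ringChar L ^ k [MOD Fintype.card L - 1]) →
        ∀ ψ : AddChar L ℂ, ψ ≠ 1 →
          4 ≤ Set.ncard {w : ℂ | ∃ a : L, a ≠ 0 ∧ w = ∑ x : L, ψ (x ^ s - a * x)} := by
  intro L _ _ hp2 ⟨k, hk⟩ s hs h1 ψ hψ
  classical
  by_contra hlt
  set p := ringChar L with hp
  have : CharP L p := ringChar.charP L
  obtain ⟨n, hpp, hn⟩ := FiniteField.card L p
  have hodd : Odd (Fintype.card L) := by
    rw [hn]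
    exact (hpp.odd_of_ne_two hp2).pow
  have hs0 : s ≠ 0 := by
    rintro rfl
    rw [Nat.coprime_zero_left] at hs
    obtain ⟨c, hc⟩ := hodd
    omega
  let f : L →*₀ L := powMonoidWithZeroHom hs0
  have hW : ∀ a, Wv ψ f 1 a = ∑ x : L, ψ (x ^ s - a * x) := fun a => by
    unfold Wv
    simp only [one_mul]
    rfl
  have hS : {w : ℂ | ∃ a : L, a ≠ 0 ∧ w = ∑ x : L, ψ (x ^ s - a * x)} =
      ((Finset.univ.erase (0 : L)).image (Wv ψ f 1) : Finset ℂ) := by
    ext w
    simp only [Set.mem_ofPred_eq, Finset.coe_image, Finset.coe_erase, Finset.coe_univ,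
      Set.mem_image, Set.mem_sdiff, Set.mem_univ, Set.mem_singleton_iff, true_and, hW]
    exact ⟨fun ⟨a, h, e⟩ => ⟨a, h, e.symm⟩, fun ⟨a, h, e⟩ => ⟨a, h, e.symm⟩⟩
  rw [hS, Set.ncard_coe_finset] at hlt
  exact h1 (modEq_of_add hpp hs0 (add_of_few hpp hp2 hk f (pow_inj hs0 hs) hψ _ (by omega)
    (fun a ha => Finset.mem_image.2 ⟨a, Finset.mem_erase.2 ⟨ha, Finset.mem_univ _⟩, rfl⟩)))

end Pool.Agent.Results.MP_7adc1e_nt.FourValues
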