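import Pool.Agent.MP_7adc1e_nt.Mg.Two

namespace Pool.Agent.Results.MP_7adc1e_nt.Niho

open Pool.Agent.MP_7adc1e_nt

/-- The conjecture holds for Niho exponents: `L` has order `r ^ 2` and `s` is congruent to a power
of the characteristic modulo `r - 1`. -/
theorem result :
    ∀ (L : Type) [Field L] [Fintype L] [DecidableEq L],
      ringChar L ≠ 2 →
      ∀ r : ℕ, Fintype.card L = r ^ 2 →
      ∀ s : ℕ, Nat.Coprime s (Fintype.card L - 1) →
        (∃ i : ℕ, s ≡ ringChar L ^ i [MOD r - 1]) →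
        (¬ ∃ k : ℕ, s ≡ ringChar L ^ k [MOD Fintype.card L - 1]) →
        (Finset.univ.image (fun v : L =>
            (Finset.univ.filter (fun p : L × L =>
              p.1 + p.2 = 1 ∧ p.1 ^ s + p.2 ^ s = v)).card)).card ≤ 3 →
        ∃ v : L, (Finset.univ.filter (fun p : L × L =>
              p.1 + p.2 = 1 ∧ p.1 ^ s + p.2 ^ s = v)).card = 2 := by
  intro L _ _ _ hp2 r hr s hs ⟨i, hi⟩ h1 hnice
  classical
  set p := ringChar L with hp
  haveI : CharP L p := ringChar.charP L
  obtain ⟨n, hpp, hn⟩ := FiniteField.card L p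
  haveI : Fact p.Prime := ⟨hpp⟩
  obtain ⟨k, -, hk⟩ := (Nat.dvd_prime_pow hpp).1
    (show r ∣ p ^ (n : ℕ) by rw [← hn, hr]; exact dvd_pow_self r two_ne_zero)
  have hq1 := Fintype.one_lt_card (α := L)
  have hk0 : k ≠ 0 := by
    rintro rfl
    rw [hr, hk] at hq1
    simp at hq1
  have hr1 : 1 ≤ r := by rw [hk]; exact Nat.one_le_pow _ _ hpp.pos
  have hodd : Odd (Fintype.card L) := by
    rw [hn]
    exact (hpp.odd_of_ne_two hp2).pow
  have hs0 : s ≠ 0 := by
    rintro rfl
    rw [Nat.coprime_zero_left] at hs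
    obtain ⟨c, hc⟩ := hodd
    omega
  obtain ⟨j, hj⟩ : ∃ j, i + j = k * i := ⟨k * i - i, by
    have := Nat.le_mul_of_pos_left i (Nat.pos_of_ne_zero hk0)
    omega⟩
  let σ : L →+* L := iterateFrobenius L p k
  let φ : L →+* L := iterateFrobenius L p j
  have hσ : ∀ x, σ x = x ^ r := fun x => by rw [hk]; rfl
  let K : Subfield L := RingHom.eqLocusField σ (RingHom.id L)
  let f : L →*₀ L := φ.toMonoidWithZeroHom.comp (powMonoidWithZeroHom hs0)
  have hfφ : ∀ x, f x = φ (x ^ s) := fun x => rfl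
  have hfp : ∀ x, f x = x ^ (s * p ^ j) := fun x => by rw [hfφ, pow_mul]; rfl
  have hrep : ∀ v : L, (Finset.univ.filter (fun p : L × L =>
      p.1 + p.2 = 1 ∧ p.1 ^ s + p.2 ^ s = v)).card = rep f 1 (φ v) := by
    intro v
    unfold rep
    refine Finset.card_bij (fun xy _ => xy.1) ?_ ?_ ?_
    · rintro ⟨x, y⟩ h
      simp only [Finset.mem_filter, Finset.mem_univ, true_and] at h ⊢
      rw [← h.1, add_sub_cancel_left, hfφ, hfφ, ← map_add, h.2]
    · rintro ⟨x, y⟩ h ⟨x', y'⟩ h' e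
      simp only [Finset.mem_filter, Finset.mem_univ, true_and] at h h' e
      exact Prod.ext e (by linear_combination h.1 - h'.1 - e)
    · intro x h
      simp only [Finset.mem_filter, Finset.mem_univ, true_and] at h
      rw [hfφ, hfφ, ← map_add] at h
      exact ⟨(x, 1 - x), by simpa using φ.injective h, rfl⟩
  have hφs : Function.Surjective φ := Finite.surjective_of_injective φ.injective
  obtain ⟨g, hg⟩ := IsCyclic.exists_ofOrder_eq_natCard (α := Lˣ)
  rw [Nat.card_units, Nat.card_eq_fintype_card] at hg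
  have hne : ∀ a, f g ≠ (g : L) ^ p ^ a := by
    intro a h
    rw [hfp, ← Units.val_pow_eq_pow_val, ← Units.val_pow_eq_pow_val, Units.val_inj,
      pow_eq_pow_iff_modEq, hg] at h
    obtain ⟨n', hn'⟩ : ∃ n', (n : ℕ) = n' + 1 := ⟨n - 1, by have := n.pos; omega⟩
    refine h1 ⟨a + n' * j, ?_⟩
    have h2 : p ^ (n : ℕ) ≡ 1 [MOD Fintype.card L - 1] := by
      rw [← hn]
      exact ((Nat.modEq_iff_dvd' hq1.le).2 dvd_rfl).symm
    have h3 := (h2.pow j).mul_left s
    have h4 := h.mul_right (p ^ (n' * j))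
    rw [one_pow, mul_one, hn', ← pow_mul] at h3
    rw [← pow_add, mul_assoc, ← pow_add, show j + n' * j = (n' + 1) * j by ring] at h4
    exact h3.symm.trans h4
  have hsm : ∀ (c : K) (x : L), c • x = (c : L) * x := fun c x => rfl
  have hKσ : ∀ c : K, σ (c : L) = c := fun c => c.2
  refine (two (K := K) f ?_ ?_ hodd σ ?_ ?_ ?_ ?_ g
    (by simpa using hne 0) (by rw [hσ, hk]; exact hne k) ?_).elim (fun v hv => ?_)
  · intro x y h
    rw [hfφ, hfφ] at h
    have h2 := φ.injective h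
    by_cases hx : x = 0
    · rw [hx, zero_pow hs0] at h2
      rw [hx, pow_eq_zero_iff hs0 |>.1 h2.symm]
    by_cases hy : y = 0
    · rw [hy, zero_pow hs0] at h2
      exact absurd (pow_eq_zero_iff hs0 |>.1 h2) hx
    have h3 : (Nat.card Lˣ).Coprime s := by
      rw [Nat.card_units, Nat.card_eq_fintype_card]
      exact hs.symm
    have h4 := h3.pow_left_bijective.1 (a₁ := Units.mk0 x hx) (a₂ := Units.mk0 y hy)
      (by ext; simpa using h2)
    simpa using congrArg Units.val h4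
  · intro c x
    rw [hsm, hsm, map_mul]
    congr 1
    by_cases hc : (c : L) = 0
    · rw [hc, map_zero]
    have h2 : (c : L) ^ (r - 1) = 1 := by
      have := hKσ c
      rw [hσ, ← Nat.sub_add_cancel hr1, pow_succ] at this
      exact mul_right_cancel₀ hc (by rw [this, one_mul])
    have h3 : s * p ^ j ≡ 1 [MOD r - 1] := by
      have h4 : r ≡ 1 [MOD r - 1] := ((Nat.modEq_iff_dvd' hr1).2 dvd_rfl).symm
      have h5 := h4.pow i
      have h6 := hi.mul_right (p ^ j)
      rw [← pow_add, hj, pow_mul, ← hk] at h6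
      rw [one_pow] at h5
      exact h6.trans h5
    rw [hfp, pow_eq_pow_mod _ h2, h3, ← pow_eq_pow_mod _ h2, pow_one]
  · intro x
    rw [hσ, hσ, ← pow_mul, ← sq, ← hr, FiniteField.pow_card]
  · intro c x
    rw [hsm, hsm, map_mul, hKσ]
  · intro x hx
    exact ⟨⟨x, hx⟩, by rw [hsm, mul_one]⟩
  · intro x
    rw [hσ, hσ, map_pow]
  · refine le_trans (Finset.card_le_card ?_) hnice
    intro m hm
    obtain ⟨v, -, rfl⟩ := Finset.mem_image.1 hm
    obtain ⟨w, rfl⟩ := hφs v
    exact Finset.mem_image.2 ⟨w, Finset.mem_univ _, hrep w⟩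
  · obtain ⟨w, rfl⟩ := hφs v
    exact ⟨w, by rw [hrep, hv]⟩

end Pool.Agent.Results.MP_7adc1e_nt.Niho
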