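import Pool.Agent.MP_7adc1e_nt.Mg.H83_Small

namespace Pool.Agent.Results.MP_7adc1e_nt.SmallOdd

open Pool.Agent.MP_7adc1e_nt Pool.Agent.MP_7adc1e_nt.H83

/-- The conjecture holds over fields of order `p`, `p ^ 2`, `p ^ 3` (`p > 3`) for the nice
exponents whose odd multiplicity is at most three. -/
theorem result :
    ∀ (L : Type) [Field L] [Fintype L] [DecidableEq L],
      3 < ringChar L → Fintype.card L ≤ ringChar L ^ 3 →
      ∀ s : ℕ, Nat.Coprime s (Fintype.card L - 1) →
        (Finset.univ.image (fun v : L =>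
            (Finset.univ.filter (fun p : L × L =>
              p.1 + p.2 = 1 ∧ p.1 ^ s + p.2 ^ s = v)).card)).card ≤ 3 →
        (Finset.univ.filter (fun p : L × L =>
              p.1 + p.2 = 1 ∧ p.1 ^ s + p.2 ^ s = 2 * (2⁻¹) ^ s)).card ≤ 3 →
        (Finset.univ.filter (fun p : L × L =>
              p.1 + p.2 = 1 ∧ p.1 ^ s + p.2 ^ s = 1)).card = 2 := by
  intro L _ _ _ hp3 hq s hs hnice hA
  set p := ringChar L with hp
  have : CharP L p := ringChar.charP L
  obtain ⟨n, hpp, hn⟩ := FiniteField.card L p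
  have hodd : Odd (Fintype.card L) := by
    rw [hn]
    exact (hpp.odd_of_ne_two (by omega)).pow
  have hs0 : s ≠ 0 := by
    rintro rfl
    rw [Nat.coprime_zero_left] at hs
    obtain ⟨c, hc⟩ := hodd
    omega
  have hc : ∀ c : ℕ, 0 < c → c ≤ 3 → (c : L) ≠ 0 := fun c h0 h1 => by
    rw [Ne, CharP.cast_eq_zero_iff L p]
    exact Nat.not_dvd_of_pos_of_lt h0 (by omega)
  simp only [card_pairs hs0] at hnice hA ⊢
  rw [hn] at hq
  exact small_two _ (pow_inj hs0 hs) (by exact_mod_cast hc 2 (by omega) (by omega))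
    (by exact_mod_cast hc 3 (by omega) (by omega)) hnice hpp hp3 hn
    ((Nat.pow_le_pow_iff_right hpp.one_lt).1 hq) hA

end Pool.Agent.Results.MP_7adc1e_nt.SmallOdd
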