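import Pool.Agent.MP_7adc1e_nt.H85.Cubic

namespace Pool.Agent.Results.MP_7adc1e_nt.WeightThree

open Pool.Agent.MP_7adc1e_nt.H85

/-- The conjecture holds when the exponent is a sum of three powers of the
characteristic whose additive trinomial has no nonzero root. -/
theorem result :
    ∀ (L : Type) [Field L] [Fintype L] [DecidableEq L],
      ringChar L ≠ 2 →
      ∀ s i j k : ℕ, Nat.Coprime s (Fintype.card L - 1) →
        s ≡ ringChar L ^ i + ringChar L ^ j + ringChar L ^ k [MOD Fintype.card L - 1] →
        (∀ w : L, w ^ ringChar L ^ i + w ^ ringChar L ^ j + w ^ ringChar L ^ k = 0 → w = 0) →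
        (Finset.univ.image (fun v : L =>
            (Finset.univ.filter (fun p : L × L =>
              p.1 + p.2 = 1 ∧ p.1 ^ s + p.2 ^ s = v)).card)).card ≤ 3 →
        (Finset.univ.filter (fun p : L × L =>
              p.1 + p.2 = 1 ∧ p.1 ^ s + p.2 ^ s = 1)).card = 2 := by
  intro L _ _ _ hp2 s i j k hs hst hker hnice
  set p := ringChar L with hp
  have : CharP L p := ringChar.charP L
  obtain ⟨n, hpp, hn⟩ := FiniteField.card L p
  have : Fact p.Prime := ⟨hpp⟩
  have : ExpChar L p := ExpChar.prime hpp
  have hodd : Odd (Fintype.card L) := by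
    rw [hn]
    exact (hpp.odd_of_ne_two hp2).pow
  have hs0 : s ≠ 0 := by
    rintro rfl
    rw [Nat.coprime_zero_left] at hs
    obtain ⟨c, hc⟩ := hodd
    omega
  have h2 : (2 : L) ≠ 0 := Ring.two_ne_zero hp2
  have ht0 : p ^ i + p ^ j + p ^ k ≠ 0 := by
    have := pow_pos hpp.pos k
    omega
  have hprod : ∀ x : L, iterateFrobenius L p i x * iterateFrobenius L p j x *
      iterateFrobenius L p k x = x ^ (p ^ i + p ^ j + p ^ k) := fun x => by
    simp only [iterateFrobenius_def, pow_add]
  have hker' : ∀ w : L, iterateFrobenius L p i w + iterateFrobenius L p j w +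
      iterateFrobenius L p k w = 0 → w = 0 := fun w hw => hker w (by
    simpa only [iterateFrobenius_def] using hw)
  exact Nf_cubic _ _ _ h2 (fun x : L => x ^ s)
    (fun x => by rw [hprod]; exact pow_congr hs0 ht0 hst x) (pow_injective hs0 hs) hker' hnice

end Pool.Agent.Results.MP_7adc1e_nt.WeightThree
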